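import Pool.Agent.Helper1.T1.Goals
import Pool.Agent.Helper40.Tate.LIN

/-!
PROJECT T1 (MP_d3128a_ag), packet BEZ (helper30): the hypothesis bezout of POT from IsAnn.
-/

set_option autoImplicit false

noncomputable section

namespace Pool.Agent.Helper30.T1.BEZ

open Pool.Agent.Helper1.T1

open Pool.Agent.Helper97.Tate (OO KK SS cf iO evx evK Van Fm)

variable {F : Type} [Field F]

/-- the exponent -/
def ex (a : ℕ × ℕ) : Fin 2 →₀ ℕ := Finsupp.single 0 a.1 + Finsupp.single 1 a.2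

theorem ex_zero (a : ℕ × ℕ) : ex a 0 = a.1 := by
  simp [ex]

theorem ex_one (a : ℕ × ℕ) : ex a 1 = a.2 := by
  simp [ex]

theorem ex_inj : Function.Injective ex := by
  intro a b h
  have h0 := congrArg (fun s : Fin 2 →₀ ℕ => s 0) h
  have h1 := congrArg (fun s : Fin 2 →₀ ℕ => s 1) h
  simp only [ex_zero, ex_one] at h0 h1
  exact Prod.ext h0 h1

theorem nfi_eq (k e : ℕ) (r : Fin (nf k e).card) :
    nfi k e r = (((nf k e).equivFin.symm r : nf k e) : ℕ × ℕ) := by
  unfold nfi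
  rw [dif_pos r.2]

theorem nfi_mem (k e : ℕ) (r : Fin (nf k e).card) : nfi k e r ∈ nf k e := by
  rw [nfi_eq]
  exact ((nf k e).equivFin.symm r).2

theorem nfi_inj (k e : ℕ) : Function.Injective fun r : Fin (nf k e).card => nfi k e r := by
  intro r s h
  simp only [nfi_eq] at h
  exact (nf k e).equivFin.symm.injective (Subtype.ext h)

/-- the normal form with the coefficients `v` -/
def pol (k e : ℕ) (v : Fin (nf k e).card → F) : MvPolynomial (Fin 2) F :=
  ∑ r : Fin (nf k e).card, MvPolynomial.monomial (ex (nfi k e r)) (v r)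

theorem coeff_pol (k e : ℕ) (v : Fin (nf k e).card → F) (s : Fin 2 →₀ ℕ) :
    MvPolynomial.coeff s (pol k e v) =
      ∑ r : Fin (nf k e).card, if ex (nfi k e r) = s then v r else 0 := by
  unfold pol
  rw [MvPolynomial.coeff_sum]
  simp only [MvPolynomial.coeff_monomial]

theorem pol_ne_zero (k e : ℕ) (v : Fin (nf k e).card → F) (hv : v ≠ 0) : pol k e v ≠ 0 := by
  intro h
  apply hv
  funext r
  have h1 := coeff_pol k e v (ex (nfi k e r))
  rw [h, MvPolynomial.coeff_zero, Finset.sum_eq_single r, if_pos rfl] at h1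
  · rw [← h1]
    rfl
  · intro s _ hs
    rw [if_neg]
    intro h2
    exact hs (nfi_inj k e (ex_inj h2))
  · intro h2
    exact absurd (Finset.mem_univ r) h2

theorem isNF_pol (k e : ℕ) (v : Fin (nf k e).card → F) : IsNF k e (pol k e v) := by
  intro s hs
  have h1 := MvPolynomial.mem_support_iff.1 hs
  rw [coeff_pol] at h1
  obtain ⟨r, _, hr⟩ := Finset.exists_ne_zero_of_sum_ne_zero h1
  have h2 : ex (nfi k e r) = s := by
    by_contra h3
    rw [if_neg h3] at hr
    exact hr rfl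
  have h3 := nfi_mem k e r
  simp only [nf, Finset.mem_filter, Finset.mem_product, Finset.mem_range] at h3
  rw [← h2, ex_zero, ex_one]
  exact ⟨h3.1.1, h3.2⟩

theorem cf_CC (a : F) (f : SS F) (N n : ℤ) :
    cf ((PowerSeries.C : LaurentPolynomial F →+* SS F) (LaurentPolynomial.C a) * f) N n =
      a * cf f N n := by
  unfold cf
  split_ifs
  · rw [PowerSeries.coeff_C_mul, Pool.Agent.Helper40.Tate.LIN.coeff_C_mul]
  · rw [mul_zero]

theorem Ph_mon (x y : SS F) (a : ℕ × ℕ) (c : F) :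
    Ph x y (MvPolynomial.monomial (ex a) c) =
      (PowerSeries.C : LaurentPolynomial F →+* SS F) (LaurentPolynomial.C c) *
        (x ^ a.1 * y ^ a.2) := by
  unfold Ph ex
  rw [MvPolynomial.eval₂_monomial, Finsupp.prod_add_index', Finsupp.prod_single_index,
    Finsupp.prod_single_index]
  · rfl
  · rw [pow_zero]
  · rw [pow_zero]
  · intro i
    rw [pow_zero]
  · intro i m n
    rw [pow_add]

theorem cf_sum {ι : Type} (s : Finset ι) (f : ι → SS F) (N n : ℤ) :
    cf (∑ i ∈ s, f i) N n = ∑ i ∈ s, cf (f i) N n := by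
  classical
  induction s using Finset.induction_on with
  | empty => rw [Finset.sum_empty, Finset.sum_empty, Pool.Agent.Helper40.Tate.LIN.cf_zero]
  | insert a s ha ih =>
    rw [Finset.sum_insert ha, Finset.sum_insert ha, Pool.Agent.Helper40.Tate.LIN.cf_add, ih]

theorem cf_pol (k e : ℕ) (v : Fin (nf k e).card → F) (x y : SS F) (N n : ℤ) :
    cf (Ph x y (pol k e v)) N n =
      ∑ r : Fin (nf k e).card, v r * cf (x ^ (nfi k e r).1 * y ^ (nfi k e r).2) N n := by
  have h1 : Ph x y (pol k e v) =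
      ∑ r : Fin (nf k e).card, Ph x y (MvPolynomial.monomial (ex (nfi k e r)) (v r)) := by
    unfold pol Ph
    rw [MvPolynomial.eval₂_sum]
  rw [h1, cf_sum]
  refine Finset.sum_congr rfl fun r _ => ?_
  rw [Ph_mon, cf_CC]

theorem t : S_BEZ := by
  intro F _ k L c d a T x y hk hA hs j hj v hv
  by_contra hcon
  push Not at hcon
  have he1 : 1 ≤ d - k * j := by omega
  have heZ : (d : ℤ) - k * j = ((d - k * j : ℕ) : ℤ) := by
    rw [Nat.cast_sub hj.le]
    push_cast
    ring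
  have hk0 : (0 : ℝ) < k := by exact_mod_cast (by omega : 0 < k)
  have ha : ∀ l, (0 : ℝ) < a l := fun l => by exact_mod_cast (hA.pos l).1
  have hb : ∀ l, (0 : ℝ) < ((L - a l : ℕ) : ℝ) := fun l => by
    have := (hA.pos l).2
    exact_mod_cast (by omega : 0 < L - a l)
  generalize hE : d - k * j = E at he1 heZ v hcon
  have hkey : ∀ (l : Fin c) (b n : ℕ), (0 : ℝ) < b →
      n < ⌈((T l : ℝ) * E) / (k * b)⌉₊ → (k : ℤ) * b * n < T l * ((d : ℤ) - k * j) := by
    intro l b n hb0 hn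
    rw [Nat.lt_ceil, lt_div_iff₀ (mul_pos hk0 hb0)] at hn
    rw [heZ]
    have h2 : (n : ℝ) * ((k : ℝ) * b) < T l * E := hn
    have h3 : n * (k * b) < T l * E := by exact_mod_cast h2
    have h4 : ((n * (k * b) : ℕ) : ℤ) < ((T l * E : ℕ) : ℤ) := by exact_mod_cast h3
    push_cast at h4
    linarith [mul_comm (n : ℤ) ((k : ℤ) * b)]
  have hmain := hA.cnt E (pol k E v) (fun l => ⌈((T l : ℝ) * E) / (k * ((L - a l : ℕ) : ℝ))⌉₊)
    (fun l => ⌈((T l : ℝ) * E) / (k * (a l : ℝ))⌉₊) (isNF_pol k E v) (pol_ne_zero k E v hv)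
    (by
      intro l n hn
      rw [cf_pol]
      exact (hcon l n).2 (hkey l (L - a l) n (hb l) hn))
    (by
      intro l n hn
      rw [cf_pol]
      exact (hcon l n).1 (hkey l (a l) n (ha l) hn))
  have h1 : (∑ l, ((⌈((T l : ℝ) * E) / (k * ((L - a l : ℕ) : ℝ))⌉₊ : ℝ) +
      (⌈((T l : ℝ) * E) / (k * (a l : ℝ))⌉₊ : ℝ))) ≤ (k : ℝ) * E := by
    exact_mod_cast hmain
  have h2 : (∑ l, (((T l : ℝ) * E) / (k * ((L - a l : ℕ) : ℝ)) + ((T l : ℝ) * E) / (k * (a l : ℝ)))) ≤
      (k : ℝ) * E := by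
    refine le_trans (Finset.sum_le_sum fun l _ => ?_) h1
    exact add_le_add (Nat.le_ceil _) (Nat.le_ceil _)
  have h3 : (∑ l, (((T l : ℝ) * E) / (k * ((L - a l : ℕ) : ℝ)) + ((T l : ℝ) * E) / (k * (a l : ℝ)))) =
      (E : ℝ) / k * ∑ l, ((T l : ℝ) / a l + (T l : ℝ) / ((L - a l : ℕ) : ℝ)) := by
    rw [Finset.mul_sum]
    refine Finset.sum_congr rfl fun l _ => ?_
    have h4 := (ha l).ne'
    have h5 := (hb l).ne'
    have h6 := hk0.ne'
    field_simp
    ring
  rw [h3] at h2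
  have hE0 : (0 : ℝ) < E := by exact_mod_cast (by omega : 0 < E)
  have h4 : (E : ℝ) / k * (k : ℝ) ^ 2 < (k : ℝ) * E :=
    lt_of_lt_of_le (mul_lt_mul_of_pos_left hs (div_pos hE0 hk0)) h2
  have h5 : (E : ℝ) / k * (k : ℝ) ^ 2 = k * E := by
    field_simp
  linarith

end Pool.Agent.Helper30.T1.BEZ
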