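import Pool.Agent.Helper1.T1.Goals4
import Pool.Agent.Helper30.T1.BEZ

/-!
PROJECT T1 (MP_d3128a_ag), packet ISO (helper30): completion of the wedges to a basis.
-/

set_option autoImplicit false

noncomputable section

namespace Pool.Agent.Helper30.T1.ISO

open Pool.Agent.Helper1.T1 Pool.Agent.Helper30.T1.BEZ

open Pool.Agent.Helper97.Tate (OO KK SS cf iO evx evK Van Fm)

/-- all the positions `(l, n)` with `-(A l) < n < B l` -/
def ZZ {c : ℕ} (A B : Fin c → ℕ) : Finset (Fin c × ℤ) :=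
  (Finset.univ.sigma fun l : Fin c => Finset.Ioo (-(A l : ℤ)) (B l : ℤ)).map
    (Equiv.sigmaEquivProd (Fin c) ℤ).toEmbedding

theorem mem_ZZ {c : ℕ} (A B : Fin c → ℕ) (l : Fin c) (n : ℤ) :
    (l, n) ∈ ZZ A B ↔ -(A l : ℤ) < n ∧ n < B l := by
  unfold ZZ
  simp only [Finset.mem_map, Finset.mem_sigma, Finset.mem_univ, true_and, Finset.mem_Ioo,
    Equiv.coe_toEmbedding, Equiv.sigmaEquivProd_apply, Prod.mk.injEq, Sigma.exists]
  constructor
  · rintro ⟨l', n', h, rfl, rfl⟩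
    exact h
  · intro h
    exact ⟨l, n, h, rfl, rfl⟩

theorem card_ZZ {c : ℕ} (A B : Fin c → ℕ) (hA : ∀ l, 1 ≤ A l) :
    (ZZ A B).card + c = ∑ l, (A l + B l) := by
  unfold ZZ
  rw [Finset.card_map, Finset.card_sigma]
  have h1 : ∀ l : Fin c, (Finset.Ioo (-(A l : ℤ)) (B l : ℤ)).card = A l + B l - 1 := by
    intro l
    rw [Int.card_Ioo]
    have := hA l
    omega
  simp only [h1]
  have h2 : ∑ _l : Fin c, 1 = c := by simp
  have h3 : (∑ l, (A l + B l - 1)) + ∑ _l : Fin c, 1 = ∑ l, (A l + B l) := by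
    rw [← Finset.sum_add_distrib]
    refine Finset.sum_congr rfl fun l _ => ?_
    have := hA l
    omega
  rw [h2] at h3
  exact h3

theorem ec_neg {F : Type} [Field F] (a a' : ℕ) (f : SS F) (n : ℕ) :
    ec a a' f (-(n : ℤ)) = cf f ((a' : ℤ) * n) (-(n : ℤ)) := by
  unfold ec
  split_ifs with h
  · have h1 : n = 0 := by omega
    subst h1
    simp
  · rw [mul_neg, neg_neg]

theorem ec_nonneg {F : Type} [Field F] (a a' : ℕ) (f : SS F) (n : ℕ) :
    ec a a' f (n : ℤ) = cf f ((a : ℤ) * n) n := by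
  unfold ec
  rw [if_pos (Int.natCast_nonneg n)]

theorem ceil_pos {T f k b : ℕ} (hT : 0 < T) (hf : 0 < f) (hk : 0 < k) (hb : 0 < b) :
    1 ≤ ⌈((T : ℝ) * f) / (k * (b : ℝ))⌉₊ := by
  rw [Nat.one_le_ceil_iff]
  have h1 : (0 : ℝ) < T := by exact_mod_cast hT
  have h2 : (0 : ℝ) < f := by exact_mod_cast hf
  have h3 : (0 : ℝ) < k := by exact_mod_cast hk
  have h4 : (0 : ℝ) < b := by exact_mod_cast hb
  positivity

/-- an integer below the bound is below the ceiling -/
theorem lt_ceil {T f k b : ℕ} (hk : 0 < k) (hb : 0 < b) (n : ℤ)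
    (h : (k : ℤ) * b * n < T * f) : n < (⌈((T : ℝ) * f) / (k * (b : ℝ))⌉₊ : ℤ) := by
  have h3 : (0 : ℝ) < k := by exact_mod_cast hk
  have h4 : (0 : ℝ) < b := by exact_mod_cast hb
  have h5 : (n : ℝ) < ((T : ℝ) * f) / (k * (b : ℝ)) := by
    rw [lt_div_iff₀ (mul_pos h3 h4)]
    have h6 : ((k : ℝ) * b * n) < T * f := by exact_mod_cast h
    linarith [mul_comm (n : ℝ) ((k : ℝ) * b)]
  have h7 : (n : ℝ) < ((⌈((T : ℝ) * f) / (k * (b : ℝ))⌉₊ : ℤ) : ℝ) := by
    refine lt_of_lt_of_le h5 ?_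
    rw [Int.cast_natCast]
    exact Nat.le_ceil _
  exact_mod_cast h7

theorem t (hN : S_NFC) : S_ISO := by
  intro F _ k L c d a T x y hk hA hc hT hs j hj
  have hck : 1 ≤ c := by
    have h1 : 2 ≤ (k - 1) * (k - 2) := by
      have h2 : 2 ≤ k - 1 := by omega
      have h3 : 1 ≤ k - 2 := by omega
      calc 2 = 2 * 1 := rfl
        _ ≤ (k - 1) * (k - 2) := Nat.mul_le_mul h2 h3
    omega
  obtain ⟨f, hf⟩ : ∃ f, f + k + k * j = d + 3 := ⟨d + 3 - k - k * j, by omega⟩
  have hf0 : 0 < f := by omega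
  obtain ⟨e, he⟩ : ∃ e, d - k * j = e := ⟨_, rfl⟩
  have hef : e + 3 = f + k := by omega
  have hnf := hN k e (by omega) (by omega)
  rw [← hc] at hnf
  have hν : (nf k e).card + c = k * e + 1 := by omega
  have hk0 : 0 < k := by omega
  have ha : ∀ l, 0 < a l := fun l => (hA.pos l).1
  have hb : ∀ l, 0 < L - a l := fun l => by
    have := (hA.pos l).2
    omega
  have hkR : (0 : ℝ) < k := by exact_mod_cast hk0
  have haR : ∀ l, (0 : ℝ) < a l := fun l => by exact_mod_cast ha l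
  have hbR : ∀ l, (0 : ℝ) < ((L - a l : ℕ) : ℝ) := fun l => by exact_mod_cast hb l
  have hfR : (0 : ℝ) < f := by exact_mod_cast hf0
  have hTR : ∀ l, (0 : ℝ) < T l := fun l => by exact_mod_cast hT l
  -- the counts
  obtain ⟨A, hAd⟩ : ∃ A : Fin c → ℕ, ∀ l, A l = ⌈((T l : ℝ) * f) / (k * ((L - a l : ℕ) : ℝ))⌉₊ :=
    ⟨_, fun _ => rfl⟩
  obtain ⟨B, hBd⟩ : ∃ B : Fin c → ℕ, ∀ l, B l = ⌈((T l : ℝ) * f) / (k * (a l : ℝ))⌉₊ :=
    ⟨_, fun _ => rfl⟩
  have hA1 : ∀ l, 1 ≤ A l := fun l => by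
    rw [hAd]
    exact ceil_pos (hT l) hf0 hk0 (hb l)
  have hB1 : ∀ l, 1 ≤ B l := fun l => by
    rw [hBd]
    exact ceil_pos (hT l) hf0 hk0 (ha l)
  have hsum : (∑ l, ((A l : ℝ) + B l)) < (k : ℝ) * f + 2 * c := by
    have h1 : ∀ l, (A l : ℝ) + B l < ((T l : ℝ) * f) / (k * ((L - a l : ℕ) : ℝ)) +
        ((T l : ℝ) * f) / (k * (a l : ℝ)) + 2 := by
      intro l
      have h2 : (A l : ℝ) < ((T l : ℝ) * f) / (k * ((L - a l : ℕ) : ℝ)) + 1 := by
        rw [hAd]
        exact Nat.ceil_lt_add_one (by have := hTR l; have := hbR l; positivity)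
      have h3 : (B l : ℝ) < ((T l : ℝ) * f) / (k * (a l : ℝ)) + 1 := by
        rw [hBd]
        exact Nat.ceil_lt_add_one (by have := hTR l; have := haR l; positivity)
      linarith
    have h4 : (∑ l, ((A l : ℝ) + B l)) < ∑ l, (((T l : ℝ) * f) / (k * ((L - a l : ℕ) : ℝ)) +
        ((T l : ℝ) * f) / (k * (a l : ℝ)) + 2) := by
      refine Finset.sum_lt_sum (fun l _ => (h1 l).le) ⟨⟨0, hck⟩, Finset.mem_univ _, h1 _⟩
    have h5 : (∑ l, (((T l : ℝ) * f) / (k * ((L - a l : ℕ) : ℝ)) +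
        ((T l : ℝ) * f) / (k * (a l : ℝ)) + 2)) =
        (f : ℝ) / k * (∑ l, ((T l : ℝ) / a l + (T l : ℝ) / ((L - a l : ℕ) : ℝ))) + 2 * c := by
      rw [Finset.sum_add_distrib, Finset.mul_sum]
      congr 1
      · refine Finset.sum_congr rfl fun l _ => ?_
        have h6 := (haR l).ne'
        have h7 := (hbR l).ne'
        have h8 := hkR.ne'
        field_simp
        ring
      · rw [Finset.sum_const, Finset.card_univ, Fintype.card_fin, nsmul_eq_mul]
        ring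
    have h9 : (f : ℝ) / k * (∑ l, ((T l : ℝ) / a l + (T l : ℝ) / ((L - a l : ℕ) : ℝ))) ≤
        (f : ℝ) / k * (k : ℝ) ^ 2 := mul_le_mul_of_nonneg_left hs (div_pos hfR hkR).le
    have h10 : (f : ℝ) / k * (k : ℝ) ^ 2 = k * f := by
      field_simp
    rw [h5] at h4
    linarith
  have hsumN : ∑ l, (A l + B l) < k * f + 2 * c := by
    have h1 : ((∑ l, (A l + B l) : ℕ) : ℝ) < ((k * f + 2 * c : ℕ) : ℝ) := by
      push_cast
      exact hsum
    exact_mod_cast h1
  -- `ν + c = k f + 2 c - 1`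
  have hkk : k * f + 2 * c = k * e + 2 := by
    obtain ⟨k', rfl⟩ : ∃ k', k = k' + 3 := ⟨k - 3, by omega⟩
    have h1 : 2 * c = (k' + 2) * (k' + 1) := by
      rw [hc]
      have h2 : k' + 3 - 1 = k' + 2 := by omega
      have h3 : k' + 3 - 2 = k' + 1 := by omega
      rw [h2, h3]
    have h4 : e = f + k' := by omega
    rw [h1, h4]
    ring
  obtain ⟨δ, hδ⟩ : ∃ δ, ∑ l, (A l + B l) + δ = (nf k e).card + c :=
    ⟨(nf k e).card + c - ∑ l, (A l + B l), by omega⟩
  let l0 : Fin c := ⟨0, hck⟩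
  obtain ⟨B', hB'⟩ : ∃ B' : Fin c → ℕ, ∀ l, B' l = B l + if l = l0 then δ else 0 :=
    ⟨_, fun _ => rfl⟩
  have hBB : ∀ l, B l ≤ B' l := fun l => by
    rw [hB']
    exact Nat.le_add_right _ _
  have hsum' : ∑ l, (A l + B' l) = (nf k e).card + c := by
    rw [← hδ]
    have h1 : ∀ l, A l + B' l = (A l + B l) + if l = l0 then δ else 0 := fun l => by
      rw [hB']
      ring
    simp only [h1]
    rw [Finset.sum_add_distrib, Finset.sum_ite_eq' Finset.univ l0 fun _ => δ,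
      if_pos (Finset.mem_univ _)]
  rw [he]
  refine ⟨ZZ A B', ?_, ?_, ?_⟩
  · intro l n hn
    rw [mem_ZZ]
    obtain ⟨_, h1, h2⟩ := hn
    have hfZ : ((d : ℤ) + 3 - k - k * j) = f := by
      have h3 : ((f + k + k * j : ℕ) : ℤ) = ((d + 3 : ℕ) : ℤ) := by rw [hf]
      push_cast at h3
      linarith
    rw [hfZ] at h1 h2
    constructor
    · have h4 := lt_ceil hk0 (hb l) (-n) (T := T l) (f := f) (by
        rw [mul_neg]
        exact h2)
      rw [← hAd] at h4
      linarith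
    · have h4 := lt_ceil hk0 (ha l) n (T := T l) (f := f) h1
      rw [← hBd] at h4
      have h5 : (B l : ℤ) ≤ B' l := by exact_mod_cast hBB l
      linarith
  · have h1 := card_ZZ A B' hA1
    omega
  · intro v hv
    by_contra hv0
    have hmain := hA.cnt e (pol k e v) A B' (isNF_pol k e v) (pol_ne_zero k e v hv0)
      (by
        intro l n hn
        rw [cf_pol]
        have h1 := hv (l, -(n : ℤ)) ((mem_ZZ A B' l _).2 (by
          have h2 := hBB l
          have h3 := hB1 l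
          constructor <;> omega))
        rw [← h1]
        refine Finset.sum_congr rfl fun r _ => ?_
        rw [ec_neg])
      (by
        intro l n hn
        rw [cf_pol]
        have h1 := hv (l, (n : ℤ)) ((mem_ZZ A B' l _).2 (by
          have h3 := hA1 l
          constructor <;> omega))
        rw [← h1]
        refine Finset.sum_congr rfl fun r _ => ?_
        rw [ec_nonneg])
    rw [hsum'] at hmain
    omega

end Pool.Agent.Helper30.T1.ISO
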