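import Pool.Agent.Helper1.T1.Goals3
import Pool.Agent.Helper30.T1.BEZ

/-!
PROJECT T1 (MP_d3128a_ag), packet BEZE (helper30): BEZ in the case of equality.
-/

set_option autoImplicit false

noncomputable section

namespace Pool.Agent.Helper30.T1.BEZE

open Pool.Agent.Helper1.T1 Pool.Agent.Helper30.T1.BEZ

open Pool.Agent.Helper97.Tate (OO KK SS cf iO evx evK Van Fm)

/-- strict ceiling -/
theorem lt_ceil_of_not_dvd (A B : ℕ) (hB : 0 < B) (h : ¬ B ∣ A) :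
    (A : ℝ) / B < (⌈(A : ℝ) / B⌉₊ : ℝ) := by
  refine lt_of_le_of_ne (Nat.le_ceil _) fun h1 => h ?_
  have hB0 : (B : ℝ) ≠ 0 := by exact_mod_cast hB.ne'
  rw [div_eq_iff hB0] at h1
  refine ⟨⌈(A : ℝ) / B⌉₊, ?_⟩
  have h2 : (A : ℝ) = ((B * ⌈(A : ℝ) / B⌉₊ : ℕ) : ℝ) := by
    rw [Nat.cast_mul, mul_comm]
    exact h1
  exact_mod_cast h2

theorem t : S_BEZE := by
  intro F _ k L c d a T x y hk hA hs hdv j hj v hv
  by_contra hcon
  push Not at hcon
  obtain ⟨l0, hl0⟩ := hdv j hj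
  have he1 : 1 ≤ d - k * j := by omega
  have heZ : (d : ℤ) - k * j = ((d - k * j : ℕ) : ℤ) := by
    rw [Nat.cast_sub hj.le]
    push_cast
    ring
  have hk0 : (0 : ℝ) < k := by exact_mod_cast (by omega : 0 < k)
  have ha : ∀ l, (0 : ℝ) < a l := fun l => by exact_mod_cast (hA.pos l).1
  have hb : ∀ l, (0 : ℝ) < ((L - a l : ℕ) : ℝ) := fun l => by
    have := (hA.pos l).2
    exact_mod_cast (by omega : 0 < L - a l)
  generalize hE : d - k * j = E at he1 heZ v hcon hl0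
  have hkey : ∀ (l : Fin c) (b n : ℕ), (0 : ℝ) < b →
      n < ⌈((T l : ℝ) * E) / (k * b)⌉₊ → (k : ℤ) * b * n < T l * ((d : ℤ) - k * j) := by
    intro l b n hb0 hn
    rw [Nat.lt_ceil, lt_div_iff₀ (mul_pos hk0 hb0)] at hn
    rw [heZ]
    have h2 : (n : ℝ) * ((k : ℝ) * b) < T l * E := hn
    have h3 : n * (k * b) < T l * E := by exact_mod_cast h2
    have h4 : ((n * (k * b) : ℕ) : ℤ) < ((T l * E : ℕ) : ℤ) := by exact_mod_cast h3
    push_cast at h4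
    linarith [mul_comm (n : ℤ) ((k : ℤ) * b)]
  have hmain := hA.cnt E (pol k E v) (fun l => ⌈((T l : ℝ) * E) / (k * ((L - a l : ℕ) : ℝ))⌉₊)
    (fun l => ⌈((T l : ℝ) * E) / (k * (a l : ℝ))⌉₊) (isNF_pol k E v) (pol_ne_zero k E v hv)
    (by
      intro l n hn
      rw [cf_pol]
      exact (hcon l n).2 (hkey l (L - a l) n (hb l) hn))
    (by
      intro l n hn
      rw [cf_pol]
      exact (hcon l n).1 (hkey l (a l) n (ha l) hn))
  have h1 : (∑ l, ((⌈((T l : ℝ) * E) / (k * ((L - a l : ℕ) : ℝ))⌉₊ : ℝ) +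
      (⌈((T l : ℝ) * E) / (k * (a l : ℝ))⌉₊ : ℝ))) ≤ (k : ℝ) * E := by
    exact_mod_cast hmain
  have h2 : (∑ l, (((T l : ℝ) * E) / (k * ((L - a l : ℕ) : ℝ)) + ((T l : ℝ) * E) / (k * (a l : ℝ)))) <
      (k : ℝ) * E := by
    refine lt_of_lt_of_le (Finset.sum_lt_sum (fun l _ => ?_) ⟨l0, Finset.mem_univ _, ?_⟩) h1
    · exact add_le_add (Nat.le_ceil _) (Nat.le_ceil _)
    · refine add_lt_add_of_le_of_lt (Nat.le_ceil _) ?_
      have h6 := lt_ceil_of_not_dvd (T l0 * E) (k * a l0)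
        (Nat.mul_pos (by omega) (hA.pos l0).1) hl0
      push_cast at h6
      exact h6
  have h3 : (∑ l, (((T l : ℝ) * E) / (k * ((L - a l : ℕ) : ℝ)) + ((T l : ℝ) * E) / (k * (a l : ℝ)))) =
      (E : ℝ) / k * ∑ l, ((T l : ℝ) / a l + (T l : ℝ) / ((L - a l : ℕ) : ℝ)) := by
    rw [Finset.mul_sum]
    refine Finset.sum_congr rfl fun l _ => ?_
    have h4 := (ha l).ne'
    have h5 := (hb l).ne'
    have h6 := hk0.ne'
    field_simp
    ring
  rw [h3] at h2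
  have hE0 : (0 : ℝ) < E := by exact_mod_cast (by omega : 0 < E)
  have h4 : (E : ℝ) / k * (k : ℝ) ^ 2 < (k : ℝ) * E :=
    lt_of_le_of_lt (mul_le_mul_of_nonneg_left hs (div_pos hE0 hk0).le) h2
  have h5 : (E : ℝ) / k * (k : ℝ) ^ 2 = k * E := by
    field_simp
  linarith

end Pool.Agent.Helper30.T1.BEZE
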